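import Pool.Agent.Helper66_PP.StmtsLQ
import Pool.Agent.Helper97_PP.Kri
import Pool.Agent.Helper20_PP.Rst

/-!
LQ, module CUX: transport of chains to a subgroup.
-/

open scoped BigOperators

set_option linter.unusedSectionVars false

noncomputable section

namespace Pool.Agent.Helper26_PP

open Pool.Agent.PP Pool.Agent.Helper51_AWC Pool.Agent.Helper79_WRA

section rk

variable {F H H' : Type} [Field F] [Group H] [Group H'] [Finite H] [Finite H']

/-- ranks and isomorphisms -/
theorem rk_iso (φ : H ≃* H') (a : H' → F) :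
    rk (fun t => a (φ t)) (cfs F H) = rk a (cfs F H') := by
  let Φ : (H' → F) ≃ₗ[F] (H → F) := LinearEquiv.funCongrLeft F F φ.toEquiv
  have hΦ : ∀ f : H' → F, Φ f = fun t => f (φ t) := fun f => rfl
  have h1 : (cfs F H) = (cfs F H').map (Φ : (H' → F) →ₗ[F] (H → F)) := by
    ext f
    rw [Submodule.mem_map]
    constructor
    · intro hf
      refine ⟨fun t => f (φ.symm t), ?_, ?_⟩
      · intro x y
        have h2 : φ.symm (y * x * y⁻¹) = φ.symm y * φ.symm x * (φ.symm y)⁻¹ := by
          rw [map_mul, map_mul, map_inv]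
        change f (φ.symm (y * x * y⁻¹)) = f (φ.symm x)
        rw [h2]
        exact hf _ _
      · funext t
        change f (φ.symm (φ t)) = f t
        rw [MulEquiv.symm_apply_apply]
    · rintro ⟨g, hg, rfl⟩
      intro x y
      change g (φ (y * x * y⁻¹)) = g (φ x)
      rw [map_mul, map_mul, map_inv]
      exact hg _ _
  have h2 : ∀ f : H' → F, actL (fun t => a (φ t)) (Φ f) = Φ (actL a f) :=
    fun f => H97.actF_comp φ a f
  have h3 : (cfs F H).map (actL (fun t => a (φ t))) =
      ((cfs F H').map (actL a)).map (Φ : (H' → F) →ₗ[F] (H → F)) := by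
    rw [h1, ← Submodule.map_comp, ← Submodule.map_comp]
    congr 1
    apply LinearMap.ext
    intro f
    exact h2 f
  unfold rk
  rw [h3]
  exact LinearEquiv.finrank_map_eq Φ _

end rk

section sub

variable {F X : Type} [Field F] [Group X] [Finite X] {C : Subgroup X}

theorem stab_map (t : Finset (Subgroup C)) :
    (stab t).map C.subtype = C ⊓ stab (H20.upC t) := by
  ext g
  rw [Subgroup.mem_map, Subgroup.mem_inf]
  constructor
  · rintro ⟨x, hx, rfl⟩
    exact ⟨x.2, (H20.stab_res t x).1 hx⟩
  · rintro ⟨h1, h2⟩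
    exact ⟨⟨g, h1⟩, (H20.stab_res t ⟨g, h1⟩).2 h2, rfl⟩

/-- the isomorphism between the stabilisers -/
def stabEq (t : Finset (Subgroup C)) : stab t ≃* ↥(C ⊓ stab (H20.upC t)) :=
  ((stab t).equivMapOfInjective C.subtype C.subtype_injective).trans
    (MulEquiv.subgroupCongr (stab_map t))

theorem stabEq_coe (t : Finset (Subgroup C)) (x : stab t) :
    ((stabEq t x : ↥(C ⊓ stab (H20.upC t))) : X) = ((x : C) : X) := rfl

theorem br_eq (t : Finset (Subgroup C)) (e : X → F) (g : C) :
    br (PP.top t) (fun x : C => e x) g = br (PP.top (H20.upC t)) e g := by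
  apply H20.br_res
  intro r
  rw [H20.top_res, Subgroup.mem_map]
  rfl

theorem sum_up {ℓ : ℕ} {Y : Subgroup X} (hY : Y ≤ C) (g : Finset (Subgroup X) → ℤ) :
    ∑ d ∈ chainsOn (psubIn ℓ Y) ⊥, g d =
      ∑ t ∈ chainsOn (psubIn ℓ (Y.subgroupOf C)) ⊥, g (H20.upC t) := by
  symm
  apply Finset.sum_bij' (fun t _ => H20.upC t) (fun d _ => H20.dnC C d)
  · intro t ht
    exact H20.upC_mem hY ht
  · intro d hd
    exact H20.dnC_mem hd
  · intro t _
    exact H20.dn_up t
  · intro d hd
    apply H20.up_dn
    intro D hD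
    exact (mem_psubIn.1 ((mem_chainsOn.1 hd).1 hD)).1.trans hY
  · intro t _
    rfl

end sub

theorem cux : CuxStmt := by
  intro ℓ F _ X _ _ C Y' hY e
  constructor
  · rw [sum_up hY]
    refine Finset.sum_congr rfl fun t _ => ?_
    rw [H20.upC_card, ← Nat.card_congr (stabEq t).toEquiv]
    congr 3
    have h1 := H97.ncard_comp (stabEq t)
      (fun u : ↥(C ⊓ stab (H20.upC t)) => br (PP.top (H20.upC t)) e u)
    unfold lnum
    rw [← h1]
    congr 1
    ext f
    have h2 : (fun u : stab t => br (PP.top t) (fun x : C => e x) u) =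
        fun u : stab t => br (PP.top (H20.upC t)) e ((stabEq t u : ↥(C ⊓ stab (H20.upC t))) : X) := by
      funext u
      rw [br_eq, stabEq_coe]
    rw [h2]
  · rw [sum_up hY]
    refine Finset.sum_congr rfl fun t _ => ?_
    rw [H20.upC_card, ← Nat.card_congr (stabEq t).toEquiv]
    congr 3
    have h1 := rk_iso (stabEq t)
      (fun u : ↥(C ⊓ stab (H20.upC t)) => br (PP.top (H20.upC t)) e u)
    rw [← h1]
    have h2 : (fun u : stab t => br (PP.top t) (fun x : C => e x) u) =
        fun u : stab t => br (PP.top (H20.upC t)) e ((stabEq t u : ↥(C ⊓ stab (H20.upC t))) : X) := by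
      funext u
      rw [br_eq, stabEq_coe]
    rw [h2]

end Pool.Agent.Helper26_PP
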