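import Pool.Agent.Helper26_PP.Cov

/-!
R2, modules ISO and LZ: transport of the pair sum along coverings (isomorphisms and central
extensions by `ℓ'`-groups).
-/

open scoped BigOperators

set_option linter.unusedSectionVars false

noncomputable section

namespace Pool.Agent.Helper26_PP

open Pool.Agent.PP Pool.Agent.PP.H74 Pool.Agent.Helper51_AWC Pool.Agent.Helper79_WRA

/-! ## Lifts of automorphisms -/

section lifts

variable {Y₁ Y : Type} [Group Y₁] [Group Y] {p : Y₁ →* Y}

/-- `a` lifts `b` -/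
def Lf (p : Y₁ →* Y) (a : MulAut Y₁) (b : MulAut Y) : Prop := ∀ y, p (a y) = b (p y)

theorem Lf.mul {a a' : MulAut Y₁} {b b' : MulAut Y} (h : Lf p a b) (h' : Lf p a' b') :
    Lf p (a * a') (b * b') := by
  intro y
  rw [MulAut.mul_apply, MulAut.mul_apply, h, h']

theorem Lf.inv {a : MulAut Y₁} {b : MulAut Y} (h : Lf p a b) : Lf p a⁻¹ b⁻¹ := by
  intro y
  have h1 := h (a⁻¹ y)
  rw [MulAut.apply_inv_self] at h1
  rw [h1, MulAut.inv_apply_self]

theorem Lf.conj (n : Y₁) : Lf p (MulAut.conj n) (MulAut.conj (p n)) := by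
  intro y
  rw [MulAut.conj_apply, MulAut.conj_apply, map_mul, map_mul, map_inv]

theorem Lf.tw {a : MulAut Y₁} {b : MulAut Y} (h : Lf p a b) (n : Y₁) :
    Lf p (tw a n) (tw b (p n)) := h.mul (Lf.conj n)

theorem Lf.kap {a a' : MulAut Y₁} {b b' : MulAut Y} (h : Lf p a b) (h' : Lf p a' b') :
    Lf p (kap a a') (kap b b') := ((h.mul h').mul h.inv).mul h'.inv

theorem Lf.cc {a a' : MulAut Y₁} {b b' : MulAut Y} (h : Lf p a b) (h' : Lf p a' b') (n m : Y₁) :
    p (cc a a' n m) = cc b b' (p n) (p m) := by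
  have h1 : ∀ y, p ((PP.kap a a')⁻¹ y) = (PP.kap b b')⁻¹ (p y) := (h.kap h').inv
  have h2 : ∀ y, p (a y) = b (p y) := h
  have h3 : ∀ y, p (a' y) = b' (p y) := h'
  unfold PP.cc
  simp only [map_mul, map_inv, h1, h2, h3]

end lifts

/-! ## Coverings -/

/-- a covering: the `ℓ`-subgroups of `Y₁` and of `Y` correspond to each other -/
structure IsCov (ℓ : ℕ) (F : Type) [Field F] {Y₁ Y : Type} [Group Y₁] [Group Y]
    (p : Y₁ →* Y) : Prop where
  surj : Function.Surjective p
  ne : (Nat.card p.ker : F) ≠ 0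
  le : ∀ D D' : Subgroup Y₁, IsPGroup ℓ D → IsPGroup ℓ D' → D.map p ≤ D'.map p → D ≤ D'
  lift : ∀ R : Subgroup Y, IsPGroup ℓ R → ∃ D : Subgroup Y₁, IsPGroup ℓ D ∧ D.map p = R

section cov

variable {F Y₁ Y : Type} [Field F] [Group Y₁] [Finite Y₁] [Group Y] [Finite Y] {ℓ : ℕ}
  {p : Y₁ →* Y} (hp : IsCov ℓ F p)

include hp

theorem cov_inj {D D' : Subgroup Y₁} (hD : IsPGroup ℓ D) (hD' : IsPGroup ℓ D')
    (h : D.map p = D'.map p) : D = D' :=
  le_antisymm (hp.le D D' hD hD' h.le) (hp.le D' D hD' hD h.ge)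

theorem cov_norm {D : Subgroup Y₁} (hD : IsPGroup ℓ D) (x : Y₁) :
    x ∈ Subgroup.normalizer (D : Set Y₁) ↔ p x ∈ Subgroup.normalizer ((D.map p : Subgroup Y) : Set Y) := by
  rw [mem_normalizer_iff_conjS, mem_normalizer_iff_conjS]
  constructor
  · intro h
    rw [← map_conjS, h]
  · intro h
    apply cov_inj hp (conjS_pgroup hD) hD
    rw [map_conjS, h]

theorem cov_stab {d : Finset (Subgroup Y₁)} (hd : ∀ D ∈ d, IsPGroup ℓ D)
    [DecidableEq (Subgroup Y)] :
    stab d = (stab (d.image (Subgroup.map p))).comap p := by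
  ext x
  rw [Subgroup.mem_comap, mem_stab, mem_stab]
  constructor
  · intro h D' hD'
    obtain ⟨D, hD, rfl⟩ := Finset.mem_image.1 hD'
    rw [← map_conjS, h D hD]
  · intro h D hD
    apply cov_inj hp (conjS_pgroup (hd D hD)) (hd D hD)
    rw [map_conjS]
    exact h _ (Finset.mem_image_of_mem _ hD)

omit hp in
theorem top_image (p : Y₁ →* Y) (d : Finset (Subgroup Y₁)) [DecidableEq (Subgroup Y)] :
    PP.top (d.image (Subgroup.map p)) = (PP.top d).map p := by
  unfold PP.top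
  rw [Finset.coe_image, sSup_image, (Subgroup.gc_map_comap p).l_sSup]

theorem cov_normal {d : Finset (Subgroup Y₁)} (hd : ∀ D ∈ d, IsPGroup ℓ D)
    [DecidableEq (Subgroup Y)] :
    NormalChain d ↔ NormalChain (d.image (Subgroup.map p)) := by
  unfold NormalChain
  rw [top_image]
  constructor
  · intro h D' hD'
    obtain ⟨D, hD, rfl⟩ := Finset.mem_image.1 hD'
    rintro _ ⟨x, hx, rfl⟩
    exact (cov_norm hp (hd D hD) x).1 (h D hD hx)
  · intro h D hD x hx
    exact (cov_norm hp (hd D hD) x).2 (h _ (Finset.mem_image_of_mem _ hD) ⟨x, hx, rfl⟩)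

theorem cov_fix {d : Finset (Subgroup Y₁)} (hd : ∀ D ∈ d, IsPGroup ℓ D)
    [DecidableEq (Subgroup Y)] {a : MulAut Y₁} {b : MulAut Y} (h : Lf p a b) :
    FixC a d ↔ FixC b (d.image (Subgroup.map p)) := by
  have key : ∀ D : Subgroup Y₁, (D.map a.toMonoidHom).map p = (D.map p).map b.toMonoidHom := by
    intro D
    rw [Subgroup.map_map, Subgroup.map_map]
    congr 1
    ext x
    exact h x
  unfold FixC
  constructor
  · intro h1 D' hD'
    obtain ⟨D, hD, rfl⟩ := Finset.mem_image.1 hD'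
    rw [← key, h1 D hD]
  · intro h1 D hD
    apply cov_inj hp ((hd D hD).map _) (hd D hD)
    rw [key]
    exact h1 _ (Finset.mem_image_of_mem _ hD)

end cov

/-! ## The scalars -/

section scal

variable {F Y₁ Y : Type} [Field F] [Group Y₁] [Finite Y₁] [Group Y] [Finite Y]
  {p : Y₁ →* Y} (hπ : Function.Surjective p) (hne : (Nat.card p.ker : F) ≠ 0)

include hπ

theorem sub_surj (X : Subgroup Y) : Function.Surjective (p.subgroupComap X) := by
  rintro ⟨g, hg⟩
  obtain ⟨x, rfl⟩ := hπ g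
  exact ⟨⟨x, hg⟩, rfl⟩

omit hπ in
theorem sub_ker (X : Subgroup Y) : Nat.card (p.subgroupComap X).ker = Nat.card p.ker := by
  apply Nat.card_congr
  exact
    { toFun := fun x => ⟨x.1.1, congrArg Subtype.val x.2⟩
      invFun := fun x => ⟨⟨x.1, by
        change p x.1 ∈ X
        rw [show p x.1 = 1 from x.2]
        exact X.one_mem⟩, Subtype.ext x.2⟩
      left_inv := fun x => rfl
      right_inv := fun x => rfl }

omit hπ in
theorem sub_infl (X : Subgroup Y) (v : Y → F) :
    (fun t : X.comap p => infl p v t) = infl (p.subgroupComap X) (fun t : X => v t) := by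
  funext t
  simp only [infl, sub_ker]
  rfl

include hne

theorem isTS_iff (X : Subgroup Y) (φ : X → F) {a b : MulAut Y₁} {a' b' : MulAut Y}
    (ha : Lf p a a') (hb : Lf p b b') (v : Y → F) (s : F) :
    IsTS (X.comap p) (fun t => φ (p.subgroupComap X t)) a b (infl p v) s ↔
      IsTS X φ a' b' v s := by
  set q := p.subgroupComap X with hq
  have hqs : Function.Surjective q := sub_surj hπ X
  have hqn : (Nat.card q.ker : F) ≠ 0 := by rw [hq, sub_ker]; exact hne
  have himp : ∀ {n : ℕ} (ρ : X →* Matrix (Fin n) (Fin n) F) {c : MulAut Y₁} {c' : MulAut Y},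
      Lf p c c' → ∀ A : (Matrix (Fin n) (Fin n) F)ˣ,
      (Impl (ρ.comp q) c A ↔ Impl ρ c' A) := by
    intro n ρ c c' hc A
    constructor
    · intro h x x' hx
      obtain ⟨y, rfl⟩ := hqs x
      have h1 : p (c y) = x' := by
        rw [hc, hx]; rfl
      have h2 : c (y : Y₁) ∈ X.comap p := by
        rw [Subgroup.mem_comap, h1]; exact x'.2
      have h3 := h y ⟨c y, h2⟩ rfl
      have h4 : q ⟨c y, h2⟩ = x' := Subtype.ext h1
      rw [MonoidHom.comp_apply, MonoidHom.comp_apply, h4] at h3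
      exact h3
    · intro h x x' hx
      rw [MonoidHom.comp_apply, MonoidHom.comp_apply]
      apply h
      change p x' = c' (p x)
      rw [hx, hc]
  constructor
  · rintro ⟨n, ρ, A, B, hρ, htr, hA, hB, hs⟩
    obtain ⟨ρ', hρ', hfac⟩ := factor q hqs ρ hρ (by
      intro z hz x
      rw [htr]
      change φ (q (z * x)) = φ (q x)
      rw [map_mul, show q z = 1 from hz, one_mul])
    have hρe : ρ = ρ'.comp q := by
      ext1 x
      exact (hfac x).symm
    subst hρe
    refine ⟨n, ρ', A, B, hρ', ?_, (himp ρ' ha A).1 hA, (himp ρ' hb B).1 hB, ?_⟩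
    · funext x
      obtain ⟨y, rfl⟩ := hqs x
      exact congrFun htr y
    · rw [sub_infl, inf_ev q hqs hqn] at hs
      exact hs
  · rintro ⟨n, ρ, A, B, hρ, htr, hA, hB, hs⟩
    refine ⟨n, ρ.comp q, A, B, irr_comp q hqs ρ hρ, ?_, (himp ρ ha A).2 hA, (himp ρ hb B).2 hB, ?_⟩
    · funext x
      rw [← htr]
      rfl
    · rw [sub_infl, inf_ev q hqs hqn]
      exact hs

theorem ts_eq (X : Subgroup Y) (φ : X → F) {a b : MulAut Y₁} {a' b' : MulAut Y}
    (ha : Lf p a a') (hb : Lf p b b') (v : Y → F) :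
    ts (X.comap p) (fun t => φ (p.subgroupComap X t)) a b (infl p v) = ts X φ a' b' v := by
  have h : IsTS (X.comap p) (fun t => φ (p.subgroupComap X t)) a b (infl p v) =
      IsTS X φ a' b' v := by
    funext s
    exact propext (isTS_iff hπ hne X φ ha hb v s)
  unfold ts
  rw [h]

theorem tset_eq (X : Subgroup Y) (f : Y → F) {a b : MulAut Y₁} {a' b' : MulAut Y}
    (ha : Lf p a a') (hb : Lf p b b') :
    tset (X.comap p) (infl p f) a b =
      (fun φ : X → F => fun t => φ (p.subgroupComap X t)) '' tset X f a' b' := by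
  set q := p.subgroupComap X with hq
  have hqs : Function.Surjective q := sub_surj hπ X
  have hqn : (Nat.card q.ker : F) ≠ 0 := by rw [hq, sub_ker]; exact hne
  have hI := inf_IBr q hqs hqn (fun t : X => f t)
  have hfix : ∀ (φ : X → F) {c : MulAut Y₁} {c' : MulAut Y}, Lf p c c' →
      ((∀ h h' : X.comap p, (h' : Y₁) = c h → φ (q h') = φ (q h)) ↔
        ∀ h h' : X, (h' : Y) = c' h → φ h' = φ h) := by
    intro φ c c' hc
    constructor
    · intro h x x' hx
      obtain ⟨y, rfl⟩ := hqs x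
      have h1 : p (c y) = x' := by
        rw [hc, hx]; rfl
      have h2 : c (y : Y₁) ∈ X.comap p := by
        rw [Subgroup.mem_comap, h1]; exact x'.2
      have h3 := h y ⟨c y, h2⟩ rfl
      have h4 : q ⟨c y, h2⟩ = x' := Subtype.ext h1
      rw [h4] at h3
      exact h3
    · intro h x x' hx
      apply h
      change p x' = c' (p x)
      rw [hx, hc]
  ext ψ
  constructor
  · rintro ⟨h1, h2, h3, h4⟩
    have h5 : ψ ∈ {g : X.comap p → F | g ∈ IBr F (X.comap p) ∧
        actF (infl q (fun t : X => f t)) g = g} := by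
      refine ⟨h1, ?_⟩
      rw [sub_infl] at h2
      exact h2
    rw [hI] at h5
    obtain ⟨φ, ⟨h6, h7⟩, rfl⟩ := h5
    exact ⟨φ, ⟨h6, h7, (hfix φ ha).1 h3, (hfix φ hb).1 h4⟩, rfl⟩
  · rintro ⟨φ, ⟨h6, h7, h3, h4⟩, rfl⟩
    have h5 : (fun t => φ (q t)) ∈ {g : X.comap p → F | g ∈ IBr F (X.comap p) ∧
        actF (infl q (fun t : X => f t)) g = g} := by
      rw [hI]
      exact ⟨φ, ⟨h6, h7⟩, rfl⟩
    refine ⟨h5.1, ?_, (hfix φ ha).2 h3, (hfix φ hb).2 h4⟩
    rw [sub_infl]
    exact h5.2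

end scal

/-! ## The pair sum -/

section main

variable {F Y₁ Y : Type} [Field F] [Group Y₁] [Finite Y₁] [Group Y] [Finite Y] {ℓ : ℕ}
  {p : Y₁ →* Y} (hp : IsCov ℓ F p)

include hp

theorem tcon_eq (τ : F → ℂ) (f v : Y → F) {a b : MulAut Y₁} {a' b' : MulAut Y}
    (ha : Lf p a a') (hb : Lf p b b') {d : Finset (Subgroup Y₁)} (hd : ∀ D ∈ d, IsPGroup ℓ D)
    [DecidableEq (Subgroup Y)] :
    tcon τ (infl p f) a b (infl p v) d =
      (Nat.card p.ker : ℂ)⁻¹ * tcon τ f a' b' v (d.image (Subgroup.map p)) := by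
  unfold tcon
  rw [cov_stab hp hd]
  generalize stab (d.image (Subgroup.map p)) = X
  rw [tset_eq hp.surj hp.ne X f ha hb, finsum_mem_image, card_comap' p hp.surj]
  · rw [Nat.cast_mul, mul_inv, mul_assoc]
    congr 2
    apply finsum_mem_congr rfl
    intro φ _
    rw [ts_eq hp.surj hp.ne X φ ha hb v]
  · intro φ _ ψ _ h
    funext x
    obtain ⟨y, rfl⟩ := sub_surj hp.surj X x
    exact congrFun h y

theorem dd_eq (τ : F → ℂ) (f w : Y → F) {α₁ β₁ : MulAut Y₁} {α β : MulAut Y}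
    (ha : Lf p α₁ α) (hb : Lf p β₁ β) :
    DD τ ℓ (infl p f) α₁ β₁ (infl p w) = (Nat.card p.ker : ℂ) * DD τ ℓ f α β w := by
  classical
  have := Fintype.ofFinite Y₁
  have := Fintype.ofFinite Y
  -- the inner sums
  set G : Y → Y → ℂ := fun n m => ∑ d ∈ (chainsOn (psubIn ℓ (⊤ : Subgroup Y)) ⊥).filter
    (fun d => NormalChain d ∧ FixC (tw α n) d ∧ FixC (tw β m) d), (-1) ^ (d.card + 1) *
      tcon τ f (tw α n) (tw β m) (fun y => w (cc α β n m * y)) d with hG
  have hin : ∀ n m : Y₁, (∑ d ∈ (chainsOn (psubIn ℓ (⊤ : Subgroup Y₁)) ⊥).filter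
      (fun d => NormalChain d ∧ FixC (tw α₁ n) d ∧ FixC (tw β₁ m) d), (-1) ^ (d.card + 1) *
        tcon τ (infl p f) (tw α₁ n) (tw β₁ m) (fun y => infl p w (cc α₁ β₁ n m * y)) d) =
      (Nat.card p.ker : ℂ)⁻¹ * G (p n) (p m) := by
    intro n m
    rw [hG, Finset.mul_sum]
    have hps : ∀ d ∈ chainsOn (psubIn ℓ (⊤ : Subgroup Y₁)) ⊥, ∀ D ∈ d, IsPGroup ℓ D := by
      intro d hd D hD
      exact (mem_psubIn.1 ((mem_chainsOn.1 hd).1 hD)).2
    apply Finset.sum_bij (fun d _ => d.image (Subgroup.map p))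
    · intro d hd
      rw [Finset.mem_filter] at hd ⊢
      obtain ⟨hd, h1, h2, h3⟩ := hd
      have hd' := hps d hd
      refine ⟨?_, (cov_normal hp hd').1 h1, (cov_fix hp hd' (ha.tw n)).1 h2,
        (cov_fix hp hd' (hb.tw m)).1 h3⟩
      rw [mem_chainsOn]
      refine ⟨?_, ?_, ?_⟩
      · intro D' hD'
        obtain ⟨D, hD, rfl⟩ := Finset.mem_image.1 hD'
        exact mem_psubIn.2 ⟨le_top, (hd' D hD).map p⟩
      · rw [Finset.mem_image]
        exact ⟨⊥, (mem_chainsOn.1 hd).2.1, Subgroup.map_bot p⟩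
      · intro D1 hD1 D2 hD2 _
        obtain ⟨A, hA, rfl⟩ := Finset.mem_image.1 hD1
        obtain ⟨B, hB, rfl⟩ := Finset.mem_image.1 hD2
        rcases chain_total (mem_chainsOn.1 hd).2.2 hA hB with h | h
        · left; exact Subgroup.map_mono h
        · right; exact Subgroup.map_mono h
    · intro d1 hd1 d2 hd2 h
      rw [Finset.mem_filter] at hd1 hd2
      have key : ∀ d1 ∈ chainsOn (psubIn ℓ (⊤ : Subgroup Y₁)) ⊥,
          ∀ d2 ∈ chainsOn (psubIn ℓ (⊤ : Subgroup Y₁)) ⊥,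
          d1.image (Subgroup.map p) = d2.image (Subgroup.map p) → d1 ⊆ d2 := by
        intro d1 hd1 d2 hd2 h D hD
        have h1 : D.map p ∈ d2.image (Subgroup.map p) := by
          rw [← h]; exact Finset.mem_image_of_mem _ hD
        obtain ⟨D', hD', hDD'⟩ := Finset.mem_image.1 h1
        have : D' = D := cov_inj hp (hps d2 hd2 D' hD') (hps d1 hd1 D hD) hDD'
        rwa [← this]
      exact Finset.Subset.antisymm (key d1 hd1.1 d2 hd2.1 h) (key d2 hd2.1 d1 hd1.1 h.symm)
    · intro d' hd'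
      rw [Finset.mem_filter] at hd'
      obtain ⟨hd'c, hn, hfa, hfb⟩ := hd'
      obtain ⟨h1, h2, h3⟩ := mem_chainsOn.1 hd'c
      set d := (psubIn ℓ (⊤ : Subgroup Y₁)).filter (fun D => D.map p ∈ d') with hd
      have hpd : ∀ D ∈ d, IsPGroup ℓ D := fun D hD => (mem_psubIn.1 (Finset.mem_filter.1 hD).1).2
      have him : d.image (Subgroup.map p) = d' := by
        ext R
        rw [Finset.mem_image]
        constructor
        · rintro ⟨D, hD, rfl⟩
          exact (Finset.mem_filter.1 hD).2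
        · intro hR
          obtain ⟨hRM, hRp⟩ := mem_psubIn.1 (h1 hR)
          obtain ⟨D, hD, rfl⟩ := hp.lift R hRp
          refine ⟨D, ?_, rfl⟩
          rw [hd, Finset.mem_filter]
          exact ⟨mem_psubIn.2 ⟨le_top, hD⟩, hR⟩
      refine ⟨d, ?_, him⟩
      rw [Finset.mem_filter]
      refine ⟨?_, ?_, ?_, ?_⟩
      · rw [mem_chainsOn]
        refine ⟨Finset.filter_subset _ _, ?_, ?_⟩
        · rw [hd, Finset.mem_filter]
          refine ⟨mem_psubIn.2 ⟨bot_le, IsPGroup.of_bot⟩, ?_⟩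
          rw [Subgroup.map_bot]; exact h2
        · intro D1 hD1 D2 hD2 _
          rw [hd, Finset.mem_coe, Finset.mem_filter] at hD1 hD2
          have hp1 := (mem_psubIn.1 hD1.1).2
          have hp2 := (mem_psubIn.1 hD2.1).2
          rcases chain_total h3 hD1.2 hD2.2 with h | h
          · left; exact hp.le _ _ hp1 hp2 h
          · right; exact hp.le _ _ hp2 hp1 h
      · rw [cov_normal hp hpd, him]; exact hn
      · rw [cov_fix hp hpd (ha.tw n), him]; exact hfa
      · rw [cov_fix hp hpd (hb.tw m), him]; exact hfb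
    · intro d hd
      rw [Finset.mem_filter] at hd
      have hd' := hps d hd.1
      have hcard : (d.image (Subgroup.map p)).card = d.card := by
        apply Finset.card_image_of_injOn
        intro A hA B hB hAB
        exact cov_inj hp (hd' A hA) (hd' B hB) hAB
      have hv : (fun y => infl p w (cc α₁ β₁ n m * y)) =
          infl p (fun y => w (cc α β (p n) (p m) * y)) := by
        funext y
        unfold infl
        rw [map_mul, ha.cc hb]
      rw [hcard, hv, tcon_eq hp τ f _ (ha.tw n) (hb.tw m) hd']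
      ring
  have hDD : ∀ (f w : Y → F), DD τ ℓ f α β w = ∑ n, ∑ m, (∑ d ∈ (chainsOn (psubIn ℓ (⊤ : Subgroup Y)) ⊥).filter
    (fun d => NormalChain d ∧ FixC (tw α n) d ∧ FixC (tw β m) d), (-1) ^ (d.card + 1) *
      tcon τ f (tw α n) (tw β m) (fun y => w (cc α β n m * y)) d) := by
    intro f w
    unfold DD
    rw [finsum_eq_sum_of_fintype]
    apply Finset.sum_congr rfl
    intro n _
    rw [finsum_eq_sum_of_fintype]
  have hDD1 : DD τ ℓ (infl p f) α₁ β₁ (infl p w) = ∑ n, ∑ m, (∑ d ∈ (chainsOn (psubIn ℓ (⊤ : Subgroup Y₁)) ⊥).filter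
      (fun d => NormalChain d ∧ FixC (tw α₁ n) d ∧ FixC (tw β₁ m) d), (-1) ^ (d.card + 1) *
        tcon τ (infl p f) (tw α₁ n) (tw β₁ m) (fun y => infl p w (cc α₁ β₁ n m * y)) d) := by
    unfold DD
    rw [finsum_eq_sum_of_fintype]
    apply Finset.sum_congr rfl
    intro n _
    rw [finsum_eq_sum_of_fintype]
  rw [hDD, hDD1]
  have h1 : ∀ n m, (∑ d ∈ (chainsOn (psubIn ℓ (⊤ : Subgroup Y₁)) ⊥).filter
      (fun d => NormalChain d ∧ FixC (tw α₁ n) d ∧ FixC (tw β₁ m) d), (-1) ^ (d.card + 1) *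
        tcon τ (infl p f) (tw α₁ n) (tw β₁ m) (fun y => infl p w (cc α₁ β₁ n m * y)) d) =
      (Nat.card p.ker : ℂ)⁻¹ * G (p n) (p m) := hin
  simp_rw [h1]
  have h2 : ∀ n : Y₁, (∑ m : Y₁, (Nat.card p.ker : ℂ)⁻¹ * G (p n) (p m)) = ∑ m : Y, G (p n) m := by
    intro n
    rw [← Finset.mul_sum, sum_comp_hom p hp.surj (fun m => G (p n) m), nsmul_eq_mul, ← mul_assoc,
      inv_mul_cancel₀, one_mul]
    exact_mod_cast Nat.card_pos.ne'
  simp_rw [h2]
  rw [sum_comp_hom p hp.surj (fun n => ∑ m : Y, G n m), nsmul_eq_mul]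

theorem torus_lift {f w wi : Y → F} {α₁ β₁ : MulAut Y₁} {α β : MulAut Y}
    (ha : Lf p α₁ α) (hb : Lf p β₁ β) (h : Torus f α β w wi) :
    Torus (infl p f) α₁ β₁ (infl p w) (infl p wi) where
  blk := inf_blk p hp.surj hp.ne h.blk
  fa := by
    intro y
    unfold infl
    rw [ha, h.fa]
  fb := by
    intro y
    unfold infl
    rw [hb, h.fb]
  unt :=
    { fw := by rw [inf_mulF p hp.surj hp.ne, h.unt.fw]
      fwi := by rw [inf_mulF p hp.surj hp.ne, h.unt.fwi]
      unit := by rw [inf_mulF p hp.surj hp.ne, h.unt.unit]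
      unit' := by rw [inf_mulF p hp.surj hp.ne, h.unt.unit']
      comm := by
        intro n y
        unfold infl
        rw [map_mul, map_mul, map_inv, (ha.kap hb).inv, h.unt.comm] }

theorem van_lift {f : Y → F} {α₁ β₁ : MulAut Y₁} {α β : MulAut Y}
    (ha : Lf p α₁ α) (hb : Lf p β₁ β) (h : Van ℓ (infl p f) α₁ β₁) : Van ℓ f α β := by
  intro τ hτ w wi hT
  have h1 := h τ hτ _ _ (torus_lift hp ha hb hT)
  rw [dd_eq hp τ f w ha hb] at h1
  rcases mul_eq_zero.1 h1 with h2 | h2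
  · exfalso
    have : (Nat.card p.ker : ℂ) ≠ 0 := by exact_mod_cast Nat.card_pos.ne'
    exact this h2
  · exact h2

end main

/-! ## The modules -/

theorem iso : IsoStmt := by
  intro ℓ F _ Y Y' _ _ _ _ θ f α β f' α' β' hf hα hβ h
  have hker : Nat.card (θ.toMonoidHom : Y →* Y').ker = 1 := by
    have : (θ.toMonoidHom : Y →* Y').ker = ⊥ := (MonoidHom.ker_eq_bot_iff _).2 θ.injective
    rw [this, Subgroup.card_bot]
  have hp : IsCov ℓ F (θ.toMonoidHom : Y →* Y') :=
    { surj := θ.surjective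
      ne := by rw [hker]; simp
      le := by
        intro D D' _ _ h x hx
        obtain ⟨y, hy, hxy⟩ := h ⟨x, hx, rfl⟩
        have : y = x := θ.injective hxy
        rw [← this]; exact hy
      lift := by
        intro R hR
        refine ⟨R.map (θ.symm.toMonoidHom : Y' →* Y), hR.map _, ?_⟩
        rw [Subgroup.map_map]
        have : (θ.toMonoidHom : Y →* Y').comp (θ.symm.toMonoidHom : Y' →* Y) = MonoidHom.id Y' := by
          ext y
          exact θ.apply_symm_apply y
        rw [this, Subgroup.map_id] }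
  have hff : infl (θ.toMonoidHom : Y →* Y') f' = f := by
    funext y
    unfold infl
    rw [hker, Nat.cast_one, inv_one, one_mul]
    exact hf y
  apply van_lift hp (α₁ := α) (β₁ := β) (fun y => (hα y).symm) (fun y => (hβ y).symm)
  rw [hff]
  exact h

theorem lz : LzStmt := by
  intro ℓ F _ hF Y₁ Y _ _ _ _ p hs hc hk f α β α₁ β₁ hf ha hb
  have hk' : (Nat.card p.ker).Coprime ℓ := ((Nat.Prime.coprime_iff_not_dvd hF.prime).2 hk).symm
  have hp : IsCov ℓ F p :=
    { surj := hs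
      ne := natCast_ne hF hk'
      le := fun D D' hD hD' h => map_le_map p hc hk' hD hD' h
      lift := fun R hR => exists_lift p hs hk' hF.prime hR }
  exact ⟨inf_blk p hs hp.ne hf, fun h => van_lift hp ha hb h⟩

end Pool.Agent.Helper26_PP
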