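import Pool.Agent.Helper66_PP.StmtsLQ
import Pool.Agent.Helper97_PP.Kri
import Pool.Agent.Helper79_WRA.Basic

/-!
LQ, module GUE: the relative form of the last step of the theorem of Knörr and Robinson.
-/

open scoped BigOperators

noncomputable section

namespace Pool.Agent.Helper26_PP

open Pool.Agent.PP Pool.Agent.Helper51_AWC Pool.Agent.Helper79_WRA

theorem gue (hC : NchStmt) (hN : NlsStmt) : GueStmt := by
  intro ℓ F _ hF X _ _ Y _ e he
  classical
  have := Fact.mk hF.prime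
  rw [YY, hC ℓ X Y (fun X R => (Nat.card X : ℤ) * (lnum X (br R e) : ℤ)),
    hC ℓ X Y (fun X _ => (Nat.card X : ℤ) * (lnum X e : ℤ))]
  refine Finset.sum_congr rfl fun d hd => ?_
  rw [Finset.mem_filter, mem_chainsOn] at hd
  obtain ⟨⟨h1, h2, h3⟩, h4⟩ := hd
  have h5 := H97.top_mem h3 ⟨⊥, h2⟩
  have h6 : IsPGroup ℓ (PP.top d) := (mem_psubIn.1 (h1 h5)).2
  change (-1) ^ (d.card + 1) * ((Nat.card (stab d) : ℤ) * (lnum (stab d) (br (PP.top d) e) : ℤ)) =
    (-1) ^ (d.card + 1) * ((Nat.card (stab d) : ℤ) * (lnum (stab d) e : ℤ))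
  rw [H97.lnum_br hN hF he.1 (stab d) (PP.top d) h6 ?_ (H97.stab_le h5)]
  intro g hg
  rw [H97.mem_stab]
  intro D hD
  exact h4 D hD hg

end Pool.Agent.Helper26_PP
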