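import Pool.Agent.Helper98_PP.StmtsR2
import Pool.Agent.Helper74_PP.Cen

/-!
R2, modules ISO and LZ: transport of the pair sum along coverings (isomorphisms and central
extensions by `ℓ'`-groups).
-/

open scoped BigOperators

set_option linter.unusedSectionVars false

noncomputable section

namespace Pool.Agent.Helper26_PP

open Pool.Agent.PP Pool.Agent.PP.H74 Pool.Agent.Helper51_AWC Pool.Agent.Helper79_WRA

/-! ## Group rings -/

section alg0

variable {F H : Type} [Field F] [Group H] [Finite H]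

theorem mulF_assoc' (a b c : H → F) : mulF (mulF a b) c = mulF a (mulF b c) := by
  have := Fintype.ofFinite H
  apply ma_injective
  rw [← ma_mul, ← ma_mul, ← ma_mul, ← ma_mul, mul_assoc]

theorem mulF_comm' {a : H → F} (ha : IsCl a) (b : H → F) : mulF a b = mulF b a := by
  have := Fintype.ofFinite H
  funext x
  rw [mulF_eq, mulF_eq, ← Equiv.sum_comp ((Equiv.inv H).trans (Equiv.mulLeft x))]
  apply Finset.sum_congr rfl
  intro s _
  simp only [Equiv.trans_apply, Equiv.inv_apply, Equiv.coe_mulLeft, mul_inv_rev, inv_inv]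
  have h1 : a (x * s⁻¹) = a (s⁻¹ * x) := IsCl.comm ha _ _
  have h2 : s * x⁻¹ * x = s := by group
  rw [h1, h2, mul_comm]

theorem mulF_cl {a b : H → F} (ha : IsCl a) (hb : IsCl b) : IsCl (mulF a b) := by
  have := Fintype.ofFinite H
  intro x y
  rw [mulF_eq, mulF_eq, ← Equiv.sum_comp (MulAut.conj y).toEquiv]
  apply Finset.sum_congr rfl
  intro t _
  simp only [MulEquiv.toEquiv_eq_coe, MulEquiv.coe_toEquiv, MulAut.conj_apply]
  have h1 : (y * t * y⁻¹)⁻¹ * (y * x * y⁻¹) = y * (t⁻¹ * x) * y⁻¹ := by group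
  rw [h1, ha, hb]

end alg0

section alg

variable {F E G : Type} [Field F] [Group E] [Group G] [Finite E] [Finite G] (π : E →* G)
  (hπ : Function.Surjective π) (hne : (Nat.card π.ker : F) ≠ 0)

include hπ hne

theorem inf_actF (a f : G → F) (x : E) :
    actF (infl π a) (fun t => f (π t)) x = actF a f (π x) := by
  have := Fintype.ofFinite E
  have := Fintype.ofFinite G
  rw [actF_eq, actF_eq]
  have h1 : ∀ t : E, infl π a t * f (π (t * x)) =
      (fun s : G => (Nat.card π.ker : F)⁻¹ * (a s * f (s * π x))) (π t) := by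
    intro t
    simp only [infl, map_mul, mul_assoc]
  rw [Finset.sum_congr rfl (fun t _ => h1 t), sum_comp_hom π hπ
    (fun s : G => (Nat.card π.ker : F)⁻¹ * (a s * f (s * π x))), ← Finset.mul_sum, nsmul_eq_mul,
    ← mul_assoc, mul_inv_cancel₀ hne, one_mul]

theorem inf_mulF (a b : G → F) : mulF (infl π a) (infl π b) = infl π (mulF a b) := by
  have := Fintype.ofFinite E
  have := Fintype.ofFinite G
  funext x
  rw [mulF_eq]
  have h1 : ∀ t : E, infl π a t * infl π b (t⁻¹ * x) =
      (fun s : G => (Nat.card π.ker : F)⁻¹ * ((Nat.card π.ker : F)⁻¹ *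
        (a s * b (s⁻¹ * π x)))) (π t) := by
    intro t
    simp only [infl, map_mul, map_inv]
    ring
  rw [Finset.sum_congr rfl (fun t _ => h1 t), sum_comp_hom π hπ
    (fun s : G => (Nat.card π.ker : F)⁻¹ * ((Nat.card π.ker : F)⁻¹ *
        (a s * b (s⁻¹ * π x)))), ← Finset.mul_sum, ← Finset.mul_sum, nsmul_eq_mul, ← mul_assoc,
    mul_inv_cancel₀ hne, one_mul, infl, mulF_eq]

theorem inf_isIdem {a : G → F} (ha : IsIdem a) : IsIdem (infl π a) := by
  refine ⟨fun x y => ?_, ?_⟩
  · unfold infl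
    rw [map_mul, map_mul, map_inv, ha.1]
  · rw [inf_mulF π hπ hne, ha.2]

theorem inf_inj {a b : G → F} (h : infl π a = infl π b) : a = b := by
  funext y
  obtain ⟨x, rfl⟩ := hπ y
  have h1 := congrFun h x
  exact mul_left_cancel₀ (inv_ne_zero hne) h1

theorem inf_blk {f : G → F} (hf : IsBlk f) : IsBlk (infl π f) := by
  have := Fintype.ofFinite E
  have := Fintype.ofFinite G
  refine ⟨inf_isIdem π hπ hne hf.1, ?_, ?_⟩
  · intro h
    apply hf.2.1
    apply inf_inj π hπ hne
    rw [h]
    funext x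
    simp [infl]
  intro g hg
  set f₁ := infl π f with hf₁
  set h := mulF f₁ g with hh
  have hf₁i : IsIdem f₁ := inf_isIdem π hπ hne hf.1
  have hinv : ∀ z ∈ π.ker, ∀ x, h (z * x) = h x := by
    intro z hz x
    rw [hh, mulF_eq, mulF_eq, ← Equiv.sum_comp (Equiv.mulLeft z)]
    apply Finset.sum_congr rfl
    intro s _
    have h1 : f₁ (z * s) = f₁ s := by
      rw [hf₁, infl, infl, map_mul, show π z = 1 from hz, one_mul]
    have h2 : (z * s)⁻¹ * (z * x) = s⁻¹ * x := by group
    rw [Equiv.coe_mulLeft, h1, h2]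
  let h' : G → F := fun y => (Nat.card π.ker : F) * h (Function.surjInv hπ y)
  have hh' : infl π h' = h := by
    funext x
    have h1 : Function.surjInv hπ (π x) * x⁻¹ ∈ π.ker := by
      rw [MonoidHom.mem_ker, map_mul, map_inv, Function.surjInv_eq hπ, mul_inv_cancel]
    have h2 := hinv _ h1 x
    rw [inv_mul_cancel_right] at h2
    change (Nat.card π.ker : F)⁻¹ * ((Nat.card π.ker : F) * h (Function.surjInv hπ (π x))) = h x
    rw [h2, ← mul_assoc, inv_mul_cancel₀ hne, one_mul]
  have hhi : mulF h h = h := by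
    rw [hh, mulF_assoc', ← mulF_assoc' g f₁ g, ← mulF_comm' hf₁i.1 g, mulF_assoc' f₁ g g, hg.2,
      ← mulF_assoc', hf₁i.2]
  have hcl : IsCl h := mulF_cl hf₁i.1 hg.1
  have hi' : IsIdem h' := by
    refine ⟨?_, ?_⟩
    · intro x y
      obtain ⟨x, rfl⟩ := hπ x
      obtain ⟨y, rfl⟩ := hπ y
      have h1 := hcl x y
      rw [← hh'] at h1
      have h2 : π (y * x * y⁻¹) = π y * π x * (π y)⁻¹ := by rw [map_mul, map_mul, map_inv]
      rw [← h2]
      exact mul_left_cancel₀ (inv_ne_zero hne) h1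
    · apply inf_inj π hπ hne
      rw [← inf_mulF π hπ hne, hh', hhi]
  have h3 : infl π (mulF f h') = h := by
    rw [← inf_mulF π hπ hne, hh', ← hf₁, hh, ← mulF_assoc', hf₁i.2]
  rcases hf.2.2 h' hi' with h4 | h4
  · left
    rw [← h3, h4]
  · right
    rw [← h3, h4]
    funext x
    simp [infl]

omit hne in
/-- an irreducible representation whose trace is invariant under the kernel factors -/
theorem factor {n : ℕ} (σ : E →* Matrix (Fin n) (Fin n) F) (hσ : IsIrr σ)
    (htr : ∀ z ∈ π.ker, ∀ x, tr σ (z * x) = tr σ x) :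
    ∃ σ' : G →* Matrix (Fin n) (Fin n) F, IsIrr σ' ∧ ∀ x, σ' (π x) = σ x := by
  have hone : ∀ z ∈ π.ker, σ z = 1 := by
    intro z hz
    have h1 : ∀ B : Matrix (Fin n) (Fin n) F, ((σ z - 1) * B).trace = 0 := by
      intro B
      have hB : B ∈ Submodule.span F (Set.range σ) := by rw [hσ.2]; trivial
      induction hB using Submodule.span_induction with
      | mem x hx =>
        obtain ⟨h, rfl⟩ := hx
        rw [sub_mul, one_mul, Matrix.trace_sub, ← map_mul]
        exact sub_eq_zero.2 (htr z hz h)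
      | zero => simp
      | add x y _ _ hx hy => rw [mul_add, Matrix.trace_add, hx, hy, add_zero]
      | smul c x _ hx => rw [mul_smul_comm, Matrix.trace_smul, hx, smul_zero]
    have h2 : σ z - 1 = 0 := by
      ext i j
      have := h1 (Matrix.single j i 1)
      rw [Matrix.trace_mul_single] at this
      simpa using this
    exact sub_eq_zero.1 h2
  have hfac : ∀ x y : E, π x = π y → σ x = σ y := by
    intro x y hxy
    have h1 : x * y⁻¹ ∈ π.ker := by
      rw [MonoidHom.mem_ker, map_mul, map_inv, hxy, mul_inv_cancel]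
    have h2 : x = x * y⁻¹ * y := by group
    rw [h2, map_mul, hone _ h1, one_mul]
  let σ' : G →* Matrix (Fin n) (Fin n) F :=
    { toFun := fun g => σ (Function.surjInv hπ g)
      map_one' := by
        rw [← map_one σ]
        apply hfac
        rw [Function.surjInv_eq hπ, map_one]
      map_mul' := by
        intro g h
        rw [← map_mul]
        apply hfac
        rw [Function.surjInv_eq hπ, map_mul, Function.surjInv_eq hπ, Function.surjInv_eq hπ] }
  have hσ' : ∀ x, σ' (π x) = σ x := fun x => hfac _ _ (Function.surjInv_eq hπ _)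
  refine ⟨σ', ⟨hσ.1, ?_⟩, hσ'⟩
  rw [eq_top_iff, ← hσ.2, Submodule.span_le]
  rintro _ ⟨x, rfl⟩
  apply Submodule.subset_span
  exact ⟨π x, hσ' x⟩

omit hne in
theorem irr_comp {n : ℕ} (σ : G →* Matrix (Fin n) (Fin n) F) (hσ : IsIrr σ) :
    IsIrr (σ.comp π) := by
  refine ⟨hσ.1, ?_⟩
  rw [eq_top_iff, ← hσ.2, Submodule.span_le]
  rintro _ ⟨x, rfl⟩
  apply Submodule.subset_span
  obtain ⟨y, rfl⟩ := hπ x
  exact ⟨y, rfl⟩

theorem inf_IBr (a : G → F) :
    {f : E → F | f ∈ IBr F E ∧ actF (infl π a) f = f} =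
      (fun f' : G → F => fun t => f' (π t)) '' {f : G → F | f ∈ IBr F G ∧ actF a f = f} := by
  have := Fintype.ofFinite E
  have := Fintype.ofFinite G
  ext f
  constructor
  · rintro ⟨⟨n, σ, hσ, rfl⟩, hact⟩
    have htr : ∀ z ∈ π.ker, ∀ x, tr σ (z * x) = tr σ x := by
      intro z hz x
      rw [← hact, actF_eq, actF_eq,
        ← Equiv.sum_comp (Equiv.mulRight z) (fun t => infl π a t * tr σ (t * x))]
      apply Finset.sum_congr rfl
      intro t _
      have h1 : π z = 1 := hz
      simp only [Equiv.coe_mulRight, infl, map_mul, h1, mul_one, mul_assoc]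
    obtain ⟨σ', hi, hσ'⟩ := factor π hπ σ hσ htr
    have htr' : (fun t => tr σ' (π t)) = tr σ := by
      funext t
      simp only [PP.tr, hσ']
    refine ⟨tr σ', ⟨⟨n, σ', hi, rfl⟩, ?_⟩, htr'⟩
    funext g
    obtain ⟨x, rfl⟩ := hπ g
    rw [← inf_actF π hπ hne, htr', hact]
    exact (congrFun htr' x).symm
  · rintro ⟨f', ⟨⟨n, σ, hσ, rfl⟩, hact⟩, rfl⟩
    refine ⟨⟨n, σ.comp π, irr_comp π hπ σ hσ, rfl⟩, ?_⟩
    funext x
    rw [inf_actF π hπ hne, hact]

theorem inf_ev {n : ℕ} (σ : G →* Matrix (Fin n) (Fin n) F) (a : G → F) :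
    ev (σ.comp π) (infl π a) = ev σ a := by
  have := Fintype.ofFinite E
  have := Fintype.ofFinite G
  rw [ev_eq, ev_eq]
  have h1 : ∀ t : E, infl π a t • (σ.comp π) t =
      (fun s : G => ((Nat.card π.ker : F)⁻¹ * a s) • σ s) (π t) := by
    intro t
    rfl
  rw [Finset.sum_congr rfl (fun t _ => h1 t), sum_comp_hom π hπ
    (fun s : G => ((Nat.card π.ker : F)⁻¹ * a s) • σ s), Finset.smul_sum]
  apply Finset.sum_congr rfl
  intro s _
  rw [← Nat.cast_smul_eq_nsmul F, smul_smul, ← mul_assoc, mul_inv_cancel₀ hne, one_mul]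

end alg

end Pool.Agent.Helper26_PP
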